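import Pool.Agent.Helper5.LD6.T5
import Pool.Agent.Helper80.LD6.T1

/-!
# Project LD6, block T5, final form
-/

set_option autoImplicit false

namespace Pool.Agent.Helper5.LD6

open Set MeasureTheory
open Pool.Agent.Helper41.LD6
open Pool.Agent.Helper59.RE (e)

theorem phi_int {A₀ x₁ x₂ a ℓ p q ϑ δ κ₁ : ℝ} {t G T N : ℕ} (hA : 0 < A₀) (h1 : 1 < x₁) (ha1 : x₁ ≤ a) (ha2 : a + ℓ ≤ x₂) (hℓ : 0 < ℓ)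
    (hp : a ≤ p) (hpq : p ≤ q) (hq : q ≤ a + ℓ) (c : ℕ → ℝ) (I : Finset ℕ) (hI : I.card ≤ t) (hIT : ∀ τ ∈ I, 1 ≤ τ ∧ τ ≤ T)
    (hnr : ∀ x ∈ Icc a (a + ℓ), NR6 t (t * G) T N δ x) (hN : 1 ≤ N) (hδ : 0 < δ) (hgap : (t : ℝ) * N * T ≤ δ / 2 * x₁ ^ G)
    (hκ0 : 0 < κ₁) (hκ : κ₁ * (2 * T * x₂ ^ (t * G)) ≤ δ) (hℓκ : 2 * (t : ℝ) * N * T * ℓ ≤ κ₁) (hTℓ : (T : ℝ) * ℓ ≤ 1 / 2)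
    (hϑ : 0 < ϑ) (hV : ∀ τ ∈ I, ϑ ≤ Vf A₀ τ a * ℓ) (m : ℕ → ℤ) (hm : ∀ τ ∈ I, |m τ| ≤ N) (hm0 : ∃ τ ∈ I, m τ ≠ 0) :
    ‖∫ x in p..q, e (∑ τ ∈ I, m τ * Uf A₀ c τ x)‖ ≤ 2 * ℓ / (κ₁ * ϑ) :=
  phi_int_of (fun a₁ a₂ a₃ a₄ a₅ a₆ a₇ => Pool.Agent.Helper80.LD6.exp_int a₁ a₂ a₃ a₄ a₅ a₆ a₇) hA h1 ha1 ha2 hℓ hp hpq hq c I hI hIT hnr hN
    hgap hκ0 hκ hℓκ hTℓ hϑ hV m hm hm0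

end Pool.Agent.Helper5.LD6
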