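import Pool.Agent.Helper41.LD6.Defs

/-!
# Project LD6, block T5: exponential integrals of combinations of powers
-/

set_option autoImplicit false

namespace Pool.Agent.Helper5.LD6

open Set MeasureTheory
open Pool.Agent.Helper41.LD6
open Pool.Agent.Helper59.RE (e)

/-- pigeonhole: a gap of length `G` below the largest element -/
theorem cluster {I : Finset ℕ} {t G τs : ℕ} (hG : 1 ≤ G) (hI : I.card ≤ t) (hs : τs ∈ I) :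
    ∃ j, 1 ≤ j ∧ j ≤ t ∧ ∀ τ ∈ I, τs - τ < j * G ∨ (j + 1) * G ≤ τs - τ := by
  classical
  have h : ∃ j ∈ Finset.Icc 1 t, j ∉ I.image fun τ => (τs - τ) / G := by
    by_contra hc
    push Not at hc
    have h0 : 0 ∈ I.image fun τ => (τs - τ) / G := Finset.mem_image.2 ⟨τs, hs, by simp⟩
    have h1 : insert 0 (Finset.Icc 1 t) ⊆ I.image fun τ => (τs - τ) / G := by
      intro j hj
      rcases Finset.mem_insert.1 hj with rfl | hj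
      · exact h0
      · exact hc j hj
    have h2 := Finset.card_le_card h1
    rw [Finset.card_insert_of_notMem (by simp), Nat.card_Icc] at h2
    have h3 := Finset.card_image_le (s := I) (f := fun τ => (τs - τ) / G)
    omega
  obtain ⟨j, hj, hj'⟩ := h
  rw [Finset.mem_Icc] at hj
  refine ⟨j, hj.1, hj.2, fun τ hτ => ?_⟩
  have h4 : (τs - τ) / G ≠ j := fun h => hj' (Finset.mem_image.2 ⟨τ, hτ, h⟩)
  rcases Nat.lt_or_gt_of_ne h4 with h | h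
  · exact Or.inl ((Nat.div_lt_iff_lt_mul hG).1 h)
  · exact Or.inr ((Nat.le_div_iff_mul_le hG).1 h)

/-- lower bound of the derivative -/
theorem phi_lo {A₀ x₁ x₂ x a δ κ₁ : ℝ} {t G T N : ℕ} (hA : 0 < A₀) (h1 : 1 < x₁) (hx1 : x₁ ≤ a) (hax : a ≤ x) (hx2 : x ≤ x₂) (hG : 1 ≤ G)
    (I : Finset ℕ) (hI : I.card ≤ t) (hIT : ∀ τ ∈ I, 1 ≤ τ ∧ τ ≤ T) (hnr : NR6 t (t * G) T N δ x)
    (hgap : (t : ℝ) * N * T ≤ δ / 2 * x₁ ^ G) (hκ0 : 0 < κ₁) (hκ : κ₁ * (2 * T * x₂ ^ (t * G)) ≤ δ)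
    (m : ℕ → ℤ) (hm : ∀ τ ∈ I, |m τ| ≤ N) (hm0 : ∀ τ ∈ I, m τ ≠ 0) {τs : ℕ} (hs : τs ∈ I) (hmax : ∀ τ ∈ I, τ ≤ τs) :
    κ₁ * Vf A₀ τs a ≤ |∑ τ ∈ I, (m τ : ℝ) * Vf A₀ τ x| := by
  classical
  have hx0 : (1 : ℝ) < x := by linarith
  have hx00 : (0 : ℝ) < x := by linarith
  obtain ⟨j, hj1, hjt, hj⟩ := cluster hG hI hs
  set Cl := I.filter fun τ => τs - τ < j * G with hCl
  set Re := I.filter fun τ => ¬ (τs - τ < j * G) with hRe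
  have hjG : 0 < j * G := Nat.mul_pos hj1 hG
  have hsC : τs ∈ Cl := by
    rw [hCl, Finset.mem_filter]
    exact ⟨hs, by simpa using hjG⟩
  have hne : Cl.Nonempty := ⟨τs, hsC⟩
  obtain ⟨τ₀, h0C, h0m⟩ : ∃ τ₀ ∈ Cl, ∀ τ ∈ Cl, τ₀ ≤ τ := ⟨Cl.min' hne, Cl.min'_mem hne, fun τ hτ => Cl.min'_le τ hτ⟩
  have h0I : τ₀ ∈ I := (Finset.mem_filter.1 h0C).1
  have h0j : τs - τ₀ < j * G := (Finset.mem_filter.1 h0C).2
  have h01 : 1 ≤ τ₀ := (hIT τ₀ h0I).1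
  have h0s : τ₀ ≤ τs := hmax τ₀ h0I
  have hjtG : j * G ≤ t * G := Nat.mul_le_mul_right G hjt
  -- the cluster
  have hP : δ * (A₀ * x ^ (τ₀ - 1)) ≤ |∑ τ ∈ Cl, (m τ : ℝ) * Vf A₀ τ x| := by
    have hinj : Set.InjOn (fun τ => τ - τ₀) (Cl : Set ℕ) := by
      intro τ hτ τ' hτ' h
      have := h0m τ hτ
      have := h0m τ' hτ'
      simp only at h
      omega
    have h := hnr τ₀ h01 (hIT τ₀ h0I).2 (Cl.image fun τ => τ - τ₀) (by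
      intro i hi
      obtain ⟨τ, hτ, rfl⟩ := Finset.mem_image.1 hi
      have h2 := hmax τ (Finset.mem_filter.1 hτ).1
      rw [Finset.mem_range]
      omega) (hne.image _) (Finset.card_image_le.trans ((Finset.card_le_card (Finset.filter_subset _ _)).trans hI))
      (fun i => m (τ₀ + i)) (by
        intro i hi
        obtain ⟨τ, hτ, rfl⟩ := Finset.mem_image.1 hi
        have h2 : τ₀ + (τ - τ₀) = τ := by
          have := h0m τ hτ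
          omega
        simp only [h2]
        exact ⟨hm0 τ (Finset.mem_filter.1 hτ).1, hm τ (Finset.mem_filter.1 hτ).1⟩)
    rw [Finset.sum_image hinj] at h
    have h3 : ∑ τ ∈ Cl, (m τ : ℝ) * Vf A₀ τ x =
        (∑ τ ∈ Cl, (m (τ₀ + (τ - τ₀)) : ℝ) * ((τ₀ : ℝ) + ((τ - τ₀ : ℕ) : ℝ)) * x ^ (τ - τ₀)) * (A₀ * x ^ (τ₀ - 1)) := by
      rw [Finset.sum_mul]
      refine Finset.sum_congr rfl fun τ hτ => ?_
      have h4 := h0m τ hτ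
      have h5 : τ₀ + (τ - τ₀) = τ := by omega
      have h6 : (τ₀ : ℝ) + ((τ - τ₀ : ℕ) : ℝ) = τ := by exact_mod_cast h5
      have h7 : x ^ (τ - 1) = x ^ (τ - τ₀) * x ^ (τ₀ - 1) := by
        rw [← pow_add]
        congr 1
        omega
      rw [h5, h6, Vf, h7]
      ring
    have h8 : 0 < A₀ * x ^ (τ₀ - 1) := by positivity
    rw [h3, abs_mul, abs_of_pos h8]
    exact mul_le_mul_of_nonneg_right h h8.le
  -- the rest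
  have hR : |∑ τ ∈ Re, (m τ : ℝ) * Vf A₀ τ x| ≤ δ / 2 * (A₀ * x ^ (τ₀ - 1)) := by
    have hxG : (0 : ℝ) < x₁ ^ G := pow_pos (by linarith) G
    have h2 : ∀ τ ∈ Re, |(m τ : ℝ) * Vf A₀ τ x| ≤ (N : ℝ) * T * (A₀ * x ^ (τ₀ - 1)) / x₁ ^ G := by
      intro τ hτ
      obtain ⟨hτI, hτj⟩ := Finset.mem_filter.1 hτ
      have h3 : (j + 1) * G ≤ τs - τ := (hj τ hτI).resolve_left hτj
      have h4 : (j + 1) * G = j * G + G := by ring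
      have h5 : τ - 1 + G ≤ τ₀ - 1 := by
        have := (hIT τ hτI).1
        omega
      have h6 : x ^ (τ - 1) * x₁ ^ G ≤ x ^ (τ₀ - 1) := by
        calc x ^ (τ - 1) * x₁ ^ G ≤ x ^ (τ - 1) * x ^ G := by
              refine mul_le_mul_of_nonneg_left (pow_le_pow_left₀ (by linarith) (by linarith) _) (by positivity)
          _ = x ^ (τ - 1 + G) := (pow_add _ _ _).symm
          _ ≤ x ^ (τ₀ - 1) := pow_le_pow_right₀ hx0.le h5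
      have h7 : |(m τ : ℝ)| ≤ N := by
        have := hm τ hτI
        exact_mod_cast this
      have h8 : (τ : ℝ) ≤ T := by exact_mod_cast (hIT τ hτI).2
      rw [le_div_iff₀ hxG, abs_mul, Vf, abs_of_nonneg (by positivity : (0 : ℝ) ≤ A₀ * τ * x ^ (τ - 1))]
      calc |(m τ : ℝ)| * (A₀ * τ * x ^ (τ - 1)) * x₁ ^ G = |(m τ : ℝ)| * τ * (A₀ * (x ^ (τ - 1) * x₁ ^ G)) := by ring
        _ ≤ N * T * (A₀ * x ^ (τ₀ - 1)) := by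
            refine mul_le_mul (mul_le_mul h7 h8 (by positivity) (by positivity)) (mul_le_mul_of_nonneg_left h6 hA.le) ?_ (by positivity)
            positivity
    have h9 : (Re.card : ℝ) ≤ t := by
      have : Re.card ≤ t := (Finset.card_le_card (Finset.filter_subset _ _)).trans hI
      exact_mod_cast this
    calc |∑ τ ∈ Re, (m τ : ℝ) * Vf A₀ τ x| ≤ ∑ τ ∈ Re, |(m τ : ℝ) * Vf A₀ τ x| := Finset.abs_sum_le_sum_abs _ _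
      _ ≤ ∑ _τ ∈ Re, (N : ℝ) * T * (A₀ * x ^ (τ₀ - 1)) / x₁ ^ G := Finset.sum_le_sum h2
      _ = Re.card * ((N : ℝ) * T * (A₀ * x ^ (τ₀ - 1)) / x₁ ^ G) := by rw [Finset.sum_const, nsmul_eq_mul]
      _ ≤ t * ((N : ℝ) * T * (A₀ * x ^ (τ₀ - 1)) / x₁ ^ G) := mul_le_mul_of_nonneg_right h9 (by positivity)
      _ = (t : ℝ) * N * T * (A₀ * x ^ (τ₀ - 1)) / x₁ ^ G := by ring
      _ ≤ δ / 2 * (A₀ * x ^ (τ₀ - 1)) := by
          rw [div_le_iff₀ hxG]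
          calc (t : ℝ) * N * T * (A₀ * x ^ (τ₀ - 1)) ≤ δ / 2 * x₁ ^ G * (A₀ * x ^ (τ₀ - 1)) :=
                mul_le_mul_of_nonneg_right hgap (by positivity)
            _ = δ / 2 * (A₀ * x ^ (τ₀ - 1)) * x₁ ^ G := by ring
  have hsum : ∑ τ ∈ I, (m τ : ℝ) * Vf A₀ τ x = ∑ τ ∈ Cl, (m τ : ℝ) * Vf A₀ τ x + ∑ τ ∈ Re, (m τ : ℝ) * Vf A₀ τ x :=
    (Finset.sum_filter_add_sum_filter_not I _ _).symm
  have hlo : δ / 2 * (A₀ * x ^ (τ₀ - 1)) ≤ |∑ τ ∈ I, (m τ : ℝ) * Vf A₀ τ x| := by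
    rw [hsum]
    have h2 := abs_sub_abs_le_abs_add (∑ τ ∈ Cl, (m τ : ℝ) * Vf A₀ τ x) (∑ τ ∈ Re, (m τ : ℝ) * Vf A₀ τ x)
    linarith
  refine le_trans ?_ hlo
  have hsT : (τs : ℝ) ≤ T := by exact_mod_cast (hIT τs hs).2
  have h2 : a ^ (τs - 1) ≤ x ^ (τ₀ - 1) * x₂ ^ (t * G) := by
    calc a ^ (τs - 1) ≤ x ^ (τs - 1) := pow_le_pow_left₀ (by linarith) hax _
      _ = x ^ (τ₀ - 1) * x ^ (τs - τ₀) := by
          rw [← pow_add]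
          congr 1
          omega
      _ ≤ x ^ (τ₀ - 1) * x₂ ^ (t * G) := by
          refine mul_le_mul_of_nonneg_left ?_ (by positivity)
          calc x ^ (τs - τ₀) ≤ x₂ ^ (τs - τ₀) := pow_le_pow_left₀ hx00.le hx2 _
            _ ≤ x₂ ^ (t * G) := pow_le_pow_right₀ (by linarith) (by omega)
  have h20 : (0 : ℝ) ≤ x₂ ^ (t * G) := pow_nonneg (by linarith) _
  calc κ₁ * Vf A₀ τs a = κ₁ * A₀ * (τs * a ^ (τs - 1)) := by rw [Vf]; ring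
    _ ≤ κ₁ * A₀ * (T * (x ^ (τ₀ - 1) * x₂ ^ (t * G))) := by
        refine mul_le_mul_of_nonneg_left (mul_le_mul hsT h2 (pow_nonneg (by linarith) _) (by positivity)) (by positivity)
    _ = κ₁ * (2 * T * x₂ ^ (t * G)) / 2 * (A₀ * x ^ (τ₀ - 1)) := by ring
    _ ≤ δ / 2 * (A₀ * x ^ (τ₀ - 1)) := by
        refine mul_le_mul_of_nonneg_right ?_ (by positivity)
        linarith

/-- the derivative of `Vf` -/
noncomputable def Vd (A₀ : ℝ) (n : ℕ) (x : ℝ) : ℝ := A₀ * n * ((n - 1 : ℕ) * x ^ (n - 1 - 1))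

theorem Uf_deriv (A₀ : ℝ) (c : ℕ → ℝ) (n : ℕ) (x : ℝ) : HasDerivAt (Uf A₀ c n) (Vf A₀ n x) x := by
  have h := ((hasDerivAt_pow n x).const_mul A₀).add_const (c n)
  have h2 : A₀ * (n * x ^ (n - 1)) = Vf A₀ n x := by rw [Vf]; ring
  rw [← h2]
  exact h

theorem Vf_deriv (A₀ : ℝ) (n : ℕ) (x : ℝ) : HasDerivAt (Vf A₀ n) (Vd A₀ n x) x :=
  (hasDerivAt_pow (n - 1) x).const_mul (A₀ * n)

theorem Vd_cont (A₀ : ℝ) (n : ℕ) : Continuous (Vd A₀ n) := by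
  unfold Vd
  fun_prop

theorem pow_two_le {a x ℓ : ℝ} {n T : ℕ} (ha : 1 ≤ a) (hx0 : 0 ≤ x) (hx : x ≤ a + ℓ) (hℓ : 0 ≤ ℓ) (hn : n ≤ T) (hTℓ : (T : ℝ) * ℓ ≤ 1 / 2) :
    x ^ n ≤ 2 * a ^ n := by
  have h1 : x ≤ a * Real.exp ℓ := by
    have h2 := Real.add_one_le_exp ℓ
    nlinarith
  have h3 : Real.exp ℓ ^ n ≤ 2 := by
    rw [← Real.exp_nat_mul]
    have h4 : (n : ℝ) * ℓ ≤ 1 / 2 := le_trans (mul_le_mul_of_nonneg_right (by exact_mod_cast hn) hℓ) hTℓ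
    have h5 : Real.exp (1 / 2) ≤ 2 := by
      have h6 : Real.exp (1 / 2) * Real.exp (1 / 2) = Real.exp 1 := by
        rw [← Real.exp_add]
        norm_num
      have h7 := Real.exp_one_lt_d9
      have h8 := Real.exp_pos (1 / 2)
      nlinarith
    exact (Real.exp_le_exp.2 h4).trans h5
  calc x ^ n ≤ (a * Real.exp ℓ) ^ n := pow_le_pow_left₀ hx0 h1 _
    _ = a ^ n * Real.exp ℓ ^ n := mul_pow _ _ _
    _ ≤ a ^ n * 2 := mul_le_mul_of_nonneg_left h3 (by positivity)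
    _ = 2 * a ^ n := by ring

/-- upper bound of the second derivative -/
theorem phi_hi {A₀ x a ℓ : ℝ} {t T N : ℕ} (hA : 0 < A₀) (h1 : 1 < a) (hax : a ≤ x) (hxℓ : x ≤ a + ℓ) (hℓ : 0 < ℓ)
    (I : Finset ℕ) (hI : I.card ≤ t) (hIT : ∀ τ ∈ I, 1 ≤ τ ∧ τ ≤ T) (hTℓ : (T : ℝ) * ℓ ≤ 1 / 2)
    (m : ℕ → ℤ) (hm : ∀ τ ∈ I, |m τ| ≤ N) {τs : ℕ} (hs : τs ∈ I) (hmax : ∀ τ ∈ I, τ ≤ τs) :
    |∑ τ ∈ I, (m τ : ℝ) * Vd A₀ τ x| ≤ 2 * t * N * T * Vf A₀ τs a := by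
  have hx0 : (1 : ℝ) < x := by linarith
  have h2 : ∀ τ ∈ I, |(m τ : ℝ) * Vd A₀ τ x| ≤ (N : ℝ) * T * (2 * Vf A₀ τs a) := by
    intro τ hτ
    have h7 : |(m τ : ℝ)| ≤ N := by
      have := hm τ hτ
      exact_mod_cast this
    have h8 : (((τ - 1 : ℕ) : ℝ)) ≤ T := by
      have : τ - 1 ≤ T := by
        have := (hIT τ hτ).2
        omega
      exact_mod_cast this
    have h9 : (τ : ℝ) ≤ τs := by exact_mod_cast hmax τ hτ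
    have h10 : x ^ (τ - 1 - 1) ≤ 2 * a ^ (τs - 1) := by
      refine le_trans (pow_le_pow_right₀ hx0.le ?_) (pow_two_le h1.le (by linarith) hxℓ hℓ.le (by have := (hIT τs hs).2; omega : τs - 1 ≤ T) hTℓ)
      have := hmax τ hτ
      omega
    have h11 : (0 : ℝ) < a := by linarith
    have h12 : (0 : ℝ) < x := by linarith
    rw [abs_mul, Vd, abs_of_nonneg (by positivity : (0 : ℝ) ≤ A₀ * τ * (((τ - 1 : ℕ) : ℝ) * x ^ (τ - 1 - 1)))]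
    calc |(m τ : ℝ)| * (A₀ * τ * (((τ - 1 : ℕ) : ℝ) * x ^ (τ - 1 - 1))) = |(m τ : ℝ)| * ((τ - 1 : ℕ) : ℝ) * (A₀ * (τ * x ^ (τ - 1 - 1))) := by ring
      _ ≤ N * T * (A₀ * (τs * (2 * a ^ (τs - 1)))) := by
          refine mul_le_mul (mul_le_mul h7 h8 (by positivity) (by positivity))
            (mul_le_mul_of_nonneg_left (mul_le_mul h9 h10 (by positivity) (by positivity)) hA.le) (by positivity) (by positivity)
      _ = (N : ℝ) * T * (2 * Vf A₀ τs a) := by rw [Vf]; ring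
  have hV0 : 0 ≤ Vf A₀ τs a := by
    have h11 : (0 : ℝ) < a := by linarith
    rw [Vf]
    positivity
  calc |∑ τ ∈ I, (m τ : ℝ) * Vd A₀ τ x| ≤ ∑ τ ∈ I, |(m τ : ℝ) * Vd A₀ τ x| := Finset.abs_sum_le_sum_abs _ _
    _ ≤ ∑ _τ ∈ I, (N : ℝ) * T * (2 * Vf A₀ τs a) := Finset.sum_le_sum h2
    _ = I.card * ((N : ℝ) * T * (2 * Vf A₀ τs a)) := by rw [Finset.sum_const, nsmul_eq_mul]
    _ ≤ t * ((N : ℝ) * T * (2 * Vf A₀ τs a)) := mul_le_mul_of_nonneg_right (by exact_mod_cast hI) (by positivity)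
    _ = 2 * t * N * T * Vf A₀ τs a := by ring

/-- a gap of length `0` is impossible -/
theorem gap_pos {x₁ a δ : ℝ} {t G T N : ℕ} (ht : 1 ≤ t) (hT : 1 ≤ T) (hN : 1 ≤ N) (hnr : NR6 t (t * G) T N δ a)
    (hgap : (t : ℝ) * N * T ≤ δ / 2 * x₁ ^ G) : 1 ≤ G := by
  by_contra hG
  have hG0 : G = 0 := by omega
  subst hG0
  have h := hnr 1 le_rfl hT {0} (by simp) (Finset.singleton_nonempty _) (by simpa using ht) (fun _ => 1) (by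
    intro i _
    exact ⟨one_ne_zero, by simpa using (by exact_mod_cast hN : (1 : ℤ) ≤ N)⟩)
  simp only [Finset.sum_singleton, Int.cast_one, Nat.cast_one, Nat.cast_zero, add_zero, one_mul, pow_zero, mul_one, abs_one] at h
  rw [pow_zero, mul_one] at hgap
  have h2 : (1 : ℝ) ≤ (t : ℝ) * N * T := by
    have h3 : 1 ≤ t * N * T := Nat.mul_pos (Nat.mul_pos ht hN) hT
    exact_mod_cast h3
  linarith

/-- the block, from `exp_int` -/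
theorem phi_int_of
    (exp_int : ∀ {φ φ₁ φ₂ : ℝ → ℝ} {p q μ B₂ : ℝ}, p ≤ q → (∀ x ∈ Icc p q, HasDerivAt φ (φ₁ x) x) →
      (∀ x ∈ Icc p q, HasDerivAt φ₁ (φ₂ x) x) → ContinuousOn φ₂ (Icc p q) → 0 < μ → (∀ x ∈ Icc p q, μ ≤ |φ₁ x|) →
      (∀ x ∈ Icc p q, |φ₂ x| ≤ B₂) → ‖∫ x in p..q, e (φ x)‖ ≤ 1 / μ + B₂ * (q - p) / μ ^ 2)
    {A₀ x₁ x₂ a ℓ p q ϑ δ κ₁ : ℝ} {t G T N : ℕ} (hA : 0 < A₀) (h1 : 1 < x₁) (ha1 : x₁ ≤ a) (ha2 : a + ℓ ≤ x₂) (hℓ : 0 < ℓ)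
    (hp : a ≤ p) (hpq : p ≤ q) (hq : q ≤ a + ℓ) (c : ℕ → ℝ) (I : Finset ℕ) (hI : I.card ≤ t) (hIT : ∀ τ ∈ I, 1 ≤ τ ∧ τ ≤ T)
    (hnr : ∀ x ∈ Icc a (a + ℓ), NR6 t (t * G) T N δ x) (hN : 1 ≤ N) (hgap : (t : ℝ) * N * T ≤ δ / 2 * x₁ ^ G)
    (hκ0 : 0 < κ₁) (hκ : κ₁ * (2 * T * x₂ ^ (t * G)) ≤ δ) (hℓκ : 2 * (t : ℝ) * N * T * ℓ ≤ κ₁) (hTℓ : (T : ℝ) * ℓ ≤ 1 / 2)
    (hϑ : 0 < ϑ) (hV : ∀ τ ∈ I, ϑ ≤ Vf A₀ τ a * ℓ) (m : ℕ → ℤ) (hm : ∀ τ ∈ I, |m τ| ≤ N) (hm0 : ∃ τ ∈ I, m τ ≠ 0) :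
    ‖∫ x in p..q, e (∑ τ ∈ I, m τ * Uf A₀ c τ x)‖ ≤ 2 * ℓ / (κ₁ * ϑ) := by
  classical
  set I' := I.filter fun τ => m τ ≠ 0 with hI'
  have hsub : I' ⊆ I := Finset.filter_subset _ _
  have hne : I'.Nonempty := by
    obtain ⟨τ, hτ, hτm⟩ := hm0
    exact ⟨τ, Finset.mem_filter.2 ⟨hτ, hτm⟩⟩
  obtain ⟨τs, hs, hmax⟩ : ∃ τs ∈ I', ∀ τ ∈ I', τ ≤ τs := ⟨I'.max' hne, I'.max'_mem hne, fun τ hτ => I'.le_max' τ hτ⟩
  have hcard : I'.card ≤ t := (Finset.card_le_card hsub).trans hI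
  have ht1 : 1 ≤ t := le_trans (Finset.card_pos.2 hne) hcard
  have hT1 : 1 ≤ T := le_trans (hIT τs (hsub hs)).1 (hIT τs (hsub hs)).2
  have ha0 : (1 : ℝ) < a := by linarith
  have hG : 1 ≤ G := gap_pos ht1 hT1 hN (hnr a ⟨le_rfl, by linarith⟩) hgap
  have hsum : ∀ f : ℕ → ℝ, ∑ τ ∈ I, (m τ : ℝ) * f τ = ∑ τ ∈ I', (m τ : ℝ) * f τ := by
    intro f
    refine (Finset.sum_filter_of_ne ?_).symm
    intro τ _ h hm
    exact h (by rw [hm]; simp)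
  have hVs : ϑ ≤ Vf A₀ τs a * ℓ := hV τs (hsub hs)
  have hVpos : 0 < Vf A₀ τs a := by
    by_contra hc
    have h2 : Vf A₀ τs a * ℓ ≤ 0 := mul_nonpos_of_nonpos_of_nonneg (not_lt.1 hc) hℓ.le
    linarith
  have hμ : 0 < κ₁ * Vf A₀ τs a := mul_pos hκ0 hVpos
  have h := exp_int (φ := fun x => ∑ τ ∈ I', (m τ : ℝ) * Uf A₀ c τ x) (φ₁ := fun x => ∑ τ ∈ I', (m τ : ℝ) * Vf A₀ τ x)
    (φ₂ := fun x => ∑ τ ∈ I', (m τ : ℝ) * Vd A₀ τ x) (p := p) (q := q) (μ := κ₁ * Vf A₀ τs a) (B₂ := 2 * t * N * T * Vf A₀ τs a) hpq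
    (fun x _ => HasDerivAt.fun_sum fun τ _ => (Uf_deriv A₀ c τ x).const_mul _)
    (fun x _ => HasDerivAt.fun_sum fun τ _ => (Vf_deriv A₀ τ x).const_mul _)
    (continuous_finsetSum _ fun τ _ => (Vd_cont A₀ τ).const_mul _).continuousOn hμ
    (fun x hx => phi_lo hA h1 ha1 (by linarith [hx.1]) (by linarith [hx.2]) hG I' hcard (fun τ hτ => hIT τ (hsub hτ))
      (hnr x ⟨by linarith [hx.1], by linarith [hx.2]⟩) hgap hκ0 hκ m (fun τ hτ => hm τ (hsub hτ)) (fun τ hτ => (Finset.mem_filter.1 hτ).2) hs hmax)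
    (fun x hx => phi_hi hA ha0 (by linarith [hx.1]) (by linarith [hx.2]) hℓ I' hcard (fun τ hτ => hIT τ (hsub hτ)) hTℓ m
      (fun τ hτ => hm τ (hsub hτ)) hs hmax)
  have h2 : (∫ x in p..q, e (∑ τ ∈ I, m τ * Uf A₀ c τ x)) = ∫ x in p..q, e (∑ τ ∈ I', (m τ : ℝ) * Uf A₀ c τ x) := by
    congr 1
    ext x
    rw [hsum]
  rw [h2]
  refine h.trans ?_
  have h3 : 2 * (t : ℝ) * N * T * Vf A₀ τs a * (q - p) ≤ κ₁ * Vf A₀ τs a := by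
    have h4 : 2 * (t : ℝ) * N * T * (q - p) ≤ κ₁ := by
      refine le_trans ?_ hℓκ
      exact mul_le_mul_of_nonneg_left (by linarith) (by positivity)
    calc 2 * (t : ℝ) * N * T * Vf A₀ τs a * (q - p) = 2 * (t : ℝ) * N * T * (q - p) * Vf A₀ τs a := by ring
      _ ≤ κ₁ * Vf A₀ τs a := mul_le_mul_of_nonneg_right h4 hVpos.le
  have h5 : 2 * (t : ℝ) * N * T * Vf A₀ τs a * (q - p) / (κ₁ * Vf A₀ τs a) ^ 2 ≤ 1 / (κ₁ * Vf A₀ τs a) := by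
    rw [div_le_div_iff₀ (by positivity) hμ]
    nlinarith
  have h6 : 1 / (κ₁ * Vf A₀ τs a) ≤ ℓ / (κ₁ * ϑ) := by
    rw [div_le_div_iff₀ hμ (by positivity)]
    nlinarith
  calc 1 / (κ₁ * Vf A₀ τs a) + 2 * (t : ℝ) * N * T * Vf A₀ τs a * (q - p) / (κ₁ * Vf A₀ τs a) ^ 2
      ≤ ℓ / (κ₁ * ϑ) + ℓ / (κ₁ * ϑ) := add_le_add h6 (h5.trans h6)
    _ = 2 * ℓ / (κ₁ * ϑ) := by ring

end Pool.Agent.Helper5.LD6
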